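import Pool.Agent.Y291.PA.Final

/-!
# Frequencies and multiplicity
-/

set_option autoImplicit false
set_option linter.unusedSectionVars false
set_option linter.unusedVariables false

namespace Pool.Agent.R220.TI

open MeasureTheory Complex Real Pool.Agent.Y291.DB Pool.Agent.Y291.PA

open scoped ComplexConjugate

theorem iter2 {f f' : ℝ → ℝ} {f'' : ℝ} {x : ℝ} (h1 : ∀ t, HasDerivAt f (f' t) t)
    (h2 : HasDerivAt f' f'' x) : iteratedDeriv 2 f x = f'' := by
  have e1 : deriv f = f' := funext fun t => (h1 t).deriv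
  rw [iteratedDeriv_succ, iteratedDeriv_one, e1]
  exact h2.deriv

/-- The modes and the lattice. -/
theorem um_shift {φ : ℝ → ℝ → ℝ} (hc : Continuous (Function.uncurry φ))
    (hper : ∀ x y, φ x (y + 2 * π) = φ x y) {L α : ℝ}
    (hperx : ∀ x y, φ (x + L) (y + α) = φ x y) (k : ℤ) (x : ℝ) :
    um φ k (x + L) = ek k α * um φ k x := by
  unfold um
  rw [mul_left_comm]
  congr 1
  have h1 : ∀ y, (φ (x + L) y : ℂ) * ek k y = ek k α * ((φ x (y - α) : ℂ) * ek k (y - α)) := by
    intro y
    have e1 : φ (x + L) y = φ x (y - α) := by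
      have := hperx x (y - α)
      rwa [sub_add_cancel] at this
    have e2 : ek k y = ek k α * ek k (y - α) := by
      unfold ek
      rw [← Complex.exp_add]
      congr 1
      push_cast
      ring
    rw [e1, e2]
    ring
  calc ∫ y in (0 : ℝ)..(2 * π), (φ (x + L) y : ℂ) * ek k y
      = ∫ y in (0 : ℝ)..(2 * π), ek k α * ((φ x (y - α) : ℂ) * ek k (y - α)) :=
        intervalIntegral.integral_congr fun y _ => h1 y
    _ = ek k α * ∫ y in (0 : ℝ)..(2 * π), (φ x (y - α) : ℂ) * ek k (y - α) :=
        intervalIntegral.integral_const_mul _ _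
    _ = ek k α * ∫ y in (0 : ℝ)..(2 * π), (φ x y : ℂ) * ek k y := by
        congr 1
        have h2 := intervalIntegral.integral_comp_sub_right (a := 0) (b := 2 * π)
          (fun y => (φ x y : ℂ) * ek k y) α
        rw [h2]
        have hp : Function.Periodic (fun y => (φ x y : ℂ) * ek k y) (2 * π) := by
          intro y
          simp only [hper, ek_per]
        have h3 := hp.intervalIntegral_add_eq (0 - α) 0
        rw [zero_add] at h3
        rw [← h3]
        congr 1
        ring

theorem norm_ek (k : ℤ) (α : ℝ) : ‖ek k α‖ = 1 := by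
  unfold ek
  have : -((k : ℂ) * α * I) = ((-(k * α) : ℝ) : ℂ) * I := by
    push_cast
    ring
  rw [this, Complex.norm_exp_ofReal_mul_I]

section sol

variable {q : ℝ → ℝ} {φ φx φxx φy φyy : ℝ → ℝ → ℝ} (h : Sol q φ φx φxx φy φyy)
  (hper : ∀ x y, φ x (y + 2 * π) = φ x y)

include h hper

/-- High modes vanish. -/
theorem um_zero' {L α Q : ℝ} (hL : 0 < L) (hperx : ∀ x y, φ (x + L) (y + α) = φ x y)
    (hQ : ∀ x, q x ≤ Q) {k : ℤ} (hk : Q < (k : ℝ) ^ 2) (x : ℝ) : um φ k x = 0 := by
  have hperx' : ∀ x y, φx (x + L) (y + α) = φx x y := by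
    intro x y
    have h1 : HasDerivAt (fun t => φ (t + L) (y + α)) (φx (x + L) (y + α)) x :=
      (h.dx (x + L) (y + α)).comp_add_const x L
    have h2 : (fun t => φ (t + L) (y + α)) = fun t => φ t y := funext fun t => hperx t y
    rw [h2] at h1
    exact h1.unique (h.dx x y)
  have hpery' : ∀ x y, φx x (y + 2 * π) = φx x y := by
    intro x y
    have h1 := h.dx x (y + 2 * π)
    have h2 : (fun t => φ t (y + 2 * π)) = fun t => φ t y := funext fun t => hper t y
    rw [h2] at h1
    exact h1.unique (h.dx x y)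
  have p1 : ∀ x, um φ k (x + L) = ek k α * um φ k x := um_shift h.c hper hperx k
  have p2 : ∀ x, um φx k (x + L) = ek k α * um φx k x := um_shift h.cx hpery' hperx' k
  set g : ℝ → ℝ := fun x => (um φ k x * conj (um φx k x)).re with hg
  have hre : ∀ (f : ℝ → ℂ) (f' : ℂ) (x : ℝ), HasDerivAt f f' x →
      HasDerivAt (fun t => (f t).re) f'.re x ∧ HasDerivAt (fun t => (f t).im) f'.im x := by
    intro f f' x hf
    exact ⟨Complex.reCLM.hasFDerivAt.comp_hasDerivAt x hf,
      Complex.imCLM.hasFDerivAt.comp_hasDerivAt x hf⟩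
  have hgeq : ∀ x, g x = (um φ k x).re * (um φx k x).re + (um φ k x).im * (um φx k x).im := by
    intro x
    simp only [hg, Complex.mul_re, Complex.conj_re, Complex.conj_im]
    ring
  have hgd : ∀ x, HasDerivAt g (‖um φx k x‖ ^ 2 + ((k : ℝ) ^ 2 - q x) * ‖um φ k x‖ ^ 2) x := by
    intro x
    obtain ⟨a1, a2⟩ := hre _ _ _ (um_d1 h hper k x)
    obtain ⟨a3, a4⟩ := hre _ _ _ (um_d2 h hper k x)
    have h1 := (a1.mul a3).add (a2.mul a4)
    have h2 : g = (fun t => (um φ k t).re) * (fun t => (um φx k t).re) +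
        (fun t => (um φ k t).im) * (fun t => (um φx k t).im) := by
      funext t
      exact hgeq t
    rw [h2]
    convert! h1 using 1
    rw [← Complex.normSq_eq_norm_sq, ← Complex.normSq_eq_norm_sq, Complex.normSq_apply,
      Complex.normSq_apply, Complex.re_ofReal_mul, Complex.im_ofReal_mul]
    ring
  have hmono : Monotone g := by
    refine monotone_of_deriv_nonneg (fun x => (hgd x).differentiableAt) fun x => ?_
    rw [(hgd x).deriv]
    have h1 : 0 ≤ (k : ℝ) ^ 2 - q x := by linarith [hQ x]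
    positivity
  have hgper : ∀ x, g (x + L) = g x := by
    intro x
    simp only [hg, p1, p2]
    have e1 : ek k α * um φ k x * conj (ek k α * um φx k x) =
        (ek k α * conj (ek k α)) * (um φ k x * conj (um φx k x)) := by
      rw [map_mul]
      ring
    have e2 : ek k α * conj (ek k α) = 1 := by
      rw [Complex.mul_conj, Complex.normSq_eq_norm_sq, norm_ek]
      simp
    rw [e1, e2, one_mul]
  have hconst : ∀ y ∈ Set.Ioo x (x + L), g y = g x := by
    intro y hy
    refine le_antisymm ?_ (hmono hy.1.le)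
    rw [← hgper x]
    exact hmono hy.2.le
  have hz : ∀ y ∈ Set.Ioo x (x + L), um φ k y = 0 := by
    intro y hy
    have h1 : HasDerivAt g 0 y := by
      refine (hasDerivAt_const y (g x)).congr_of_eventuallyEq ?_
      filter_upwards [Ioo_mem_nhds hy.1 hy.2] with z hz using hconst z hz
    have h2 := (hgd y).unique h1
    have h3 : 0 < (k : ℝ) ^ 2 - q y := by linarith [hQ y]
    have h4 : ((k : ℝ) ^ 2 - q y) * ‖um φ k y‖ ^ 2 = 0 := by
      have : 0 ≤ ((k : ℝ) ^ 2 - q y) * ‖um φ k y‖ ^ 2 := by positivity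
      nlinarith [sq_nonneg ‖um φx k y‖]
    rcases mul_eq_zero.1 h4 with h5 | h5
    · exact absurd h5 h3.ne'
    · exact norm_eq_zero.1 (pow_eq_zero_iff two_ne_zero |>.1 h5)
  have hc : Continuous (um φ k) :=
    continuous_iff_continuousAt.2 fun t => (um_d1 h hper k t).continuousAt
  have hcl : IsClosed {t | um φ k t = 0} := isClosed_eq hc continuous_const
  have hsub : closure (Set.Ioo x (x + L)) ⊆ {t | um φ k t = 0} :=
    closure_minimal hz hcl
  rw [closure_Ioo (by linarith)] at hsub
  exact hsub (Set.left_mem_Icc.2 (by linarith))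

/-- The modes are twice continuously differentiable. -/
theorem um_smooth (k : ℤ) : ContDiff ℝ 2 (um φ k) := by
  have hc : Continuous (um φ k) :=
    continuous_iff_continuousAt.2 fun t => (um_d1 h hper k t).continuousAt
  have e1 : deriv (um φ k) = um φx k := funext fun t => (um_d1 h hper k t).deriv
  have e2 : deriv (um φx k) = fun t => (((k : ℝ) ^ 2 - q t : ℝ) : ℂ) * um φ k t :=
    funext fun t => (um_d2 h hper k t).deriv
  have h1 : ContDiff ℝ 1 (um φx k) := by
    rw [contDiff_one_iff_deriv]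
    refine ⟨fun t => (um_d2 h hper k t).differentiableAt, ?_⟩
    rw [e2]
    have := h.qc
    fun_prop
  rw [show (2 : WithTop ℕ∞) = 1 + 1 by norm_num, contDiff_succ_iff_deriv]
  refine ⟨fun t => (um_d1 h hper k t).differentiableAt, by simp, ?_⟩
  rw [e1]
  exact h1

/-- The real mode. -/
noncomputable def psi (φ : ℝ → ℝ → ℝ) (k : ℤ) (p : ℝ × ℝ) : ℝ :=
  (um φ k p.1 * Complex.exp (k * p.2 * I)).re

/-- The real modes are eigenfunctions. -/
theorem psi_eigen {r : ℝ → ℝ} {L α lam : ℝ} (hlam : 0 < lam)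
    (hperx : ∀ x y, φ (x + L) (y + α) = φ x y) (hq : ∀ x, q x = lam * r x) {k : ℤ}
    (hk : ∃ x, um φ k x ≠ 0) : Eigen (fun p => r p.1) L α lam (psi φ k) where
  pos := hlam
  smooth := by
    have h1 : ContDiff ℝ 2 fun p : ℝ × ℝ => um φ k p.1 * Complex.exp (k * p.2 * I) := by
      refine ((um_smooth h hper k).comp contDiff_fst).mul ?_
      refine ContDiff.cexp ?_
      refine (contDiff_const.mul ?_).mul contDiff_const
      exact Complex.ofRealCLM.contDiff.comp contDiff_snd
    exact Complex.reCLM.contDiff.comp h1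
  perx := by
    intro p
    unfold psi
    rw [um_shift h.c hper hperx]
    congr 1
    unfold ek
    have e1 : Complex.exp (-((k : ℂ) * α * I)) * um φ k p.1 *
        Complex.exp (k * ((p.2 + α : ℝ) : ℂ) * I) = um φ k p.1 *
        (Complex.exp (-((k : ℂ) * α * I)) * Complex.exp (k * ((p.2 + α : ℝ) : ℂ) * I)) := by ring
    rw [e1, ← Complex.exp_add]
    congr 2
    push_cast
    ring
  pery := by
    intro p
    unfold psi
    congr 2
    have e1 : (k : ℂ) * ((p.2 + 2 * π : ℝ) : ℂ) * I = k * p.2 * I + k * (2 * π * I) := by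
      push_cast
      ring
    rw [e1, Complex.exp_add, Complex.exp_int_mul_two_pi_mul_I, mul_one]
  ne := by
    obtain ⟨x, hx⟩ := hk
    by_cases hre : (um φ k x).re = 0
    · have him : (um φ k x).im ≠ 0 := by
        intro h0
        exact hx (Complex.ext hre h0)
      by_cases hk0 : k = 0
      · exfalso
        apply him
        subst hk0
        unfold um
        have e1 : ∫ y in (0 : ℝ)..(2 * π), (φ x y : ℂ) * ek 0 y =
            ((∫ y in (0 : ℝ)..(2 * π), φ x y : ℝ) : ℂ) := by
          rw [← intervalIntegral.integral_ofReal]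
          refine intervalIntegral.integral_congr fun y _ => ?_
          simp [ek]
        rw [e1, ← Complex.ofReal_mul, Complex.ofReal_im]
      · refine ⟨(x, π / (2 * k)), ?_⟩
        have hkr : (k : ℝ) ≠ 0 := by exact_mod_cast hk0
        have hkc : (k : ℂ) ≠ 0 := by exact_mod_cast hk0
        have e1 : (k : ℂ) * ((π / (2 * k) : ℝ) : ℂ) * I = π / 2 * I := by
          push_cast
          field_simp
        unfold psi
        simp only
        rw [e1, Complex.exp_pi_div_two_mul_I, Complex.mul_re, Complex.I_re, Complex.I_im]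
        simpa using him
    · refine ⟨(x, 0), ?_⟩
      unfold psi
      simpa using hre
  eq := by
    intro p
    have hcre : ∀ (f : ℝ → ℂ) (f' : ℂ) (x : ℝ), HasDerivAt f f' x →
        HasDerivAt (fun t => (f t).re) f'.re x := fun f f' x hf =>
      Complex.reCLM.hasFDerivAt.comp_hasDerivAt x hf
    have h1 : iteratedDeriv 2 (fun x => psi φ k (x, p.2)) p.1 =
        ((((k : ℝ) ^ 2 - q p.1 : ℝ) : ℂ) * um φ k p.1 * Complex.exp (k * p.2 * I)).re := by
      have a1 : ∀ t, HasDerivAt (fun x => psi φ k (x, p.2))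
          ((um φx k t * Complex.exp (k * p.2 * I)).re) t := fun t =>
        hcre (fun t => um φ k t * Complex.exp (k * p.2 * I)) _ t ((um_d1 h hper k t).mul_const _)
      exact iter2 a1 (hcre (fun t => um φx k t * Complex.exp (k * p.2 * I)) _ _
        ((um_d2 h hper k p.1).mul_const _))
    have hexp : ∀ t : ℝ, HasDerivAt (fun t : ℝ => Complex.exp (k * t * I))
        (Complex.exp (k * t * I) * (k * I)) t := by
      intro t
      have h2 : HasDerivAt (fun t : ℝ => (k : ℂ) * t * I) (k * 1 * I) t :=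
        ((Complex.ofRealCLM.hasDerivAt (x := t)).const_mul (k : ℂ)).mul_const I
      have h3 := h2.cexp
      rw [mul_one] at h3
      exact h3
    have h2 : iteratedDeriv 2 (fun y => psi φ k (p.1, y)) p.2 =
        (um φ k p.1 * ((Complex.exp (k * p.2 * I) * (k * I)) * (k * I))).re := by
      have a1 : ∀ t : ℝ, HasDerivAt (fun y => psi φ k (p.1, y))
          ((um φ k p.1 * (Complex.exp (k * t * I) * (k * I))).re) t := fun t =>
        hcre (fun t : ℝ => um φ k p.1 * Complex.exp (k * t * I)) _ t ((hexp t).const_mul _)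
      exact iter2 a1 (hcre (fun t : ℝ => um φ k p.1 * (Complex.exp (k * t * I) * (k * I))) _ _
        (((hexp p.2).mul_const _).const_mul _))
    rw [h1, h2]
    have h3 : um φ k p.1 * ((Complex.exp (k * p.2 * I) * (k * I)) * (k * I)) =
        ((-(k : ℝ) ^ 2 : ℝ) : ℂ) * (um φ k p.1 * Complex.exp (k * p.2 * I)) := by
      have hI : I * I = -1 := Complex.I_mul_I
      push_cast
      linear_combination (um φ k p.1 * Complex.exp (k * p.2 * I) * (k : ℂ) ^ 2) * hI
    have h4 : (((k : ℝ) ^ 2 - q p.1 : ℝ) : ℂ) * um φ k p.1 * Complex.exp (k * p.2 * I) =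
        (((k : ℝ) ^ 2 - q p.1 : ℝ) : ℂ) * (um φ k p.1 * Complex.exp (k * p.2 * I)) := by ring
    rw [h3, h4, Complex.re_ofReal_mul, Complex.re_ofReal_mul, hq]
    unfold psi
    ring

end sol

/-- The translation operator. -/
noncomputable def TO (s : ℝ) : Module.End ℝ (ℝ × ℝ → ℝ) where
  toFun f := fun p => f (p.1, p.2 + s) + f (p.1, p.2 - s)
  map_add' f g := by
    funext p
    simp only [Pi.add_apply]
    ring
  map_smul' c f := by
    funext p
    simp only [Pi.smul_apply, smul_eq_mul, RingHom.id_apply]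
    ring

theorem TO_psi (φ : ℝ → ℝ → ℝ) (k : ℤ) (s : ℝ) :
    TO s (psi φ k) = (2 * Real.cos (k * s)) • psi φ k := by
  funext p
  show psi φ k (p.1, p.2 + s) + psi φ k (p.1, p.2 - s) = 2 * Real.cos (k * s) * psi φ k p
  unfold psi
  simp only
  have e1 : Complex.exp (k * ((p.2 + s : ℝ) : ℂ) * I) + Complex.exp (k * ((p.2 - s : ℝ) : ℂ) * I) =
      ((2 * Real.cos (k * s) : ℝ) : ℂ) * Complex.exp (k * p.2 * I) := by
    have e2 : Complex.exp (k * ((p.2 + s : ℝ) : ℂ) * I) =
        Complex.exp (k * p.2 * I) * Complex.exp ((k * s : ℂ) * I) := by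
      rw [← Complex.exp_add]
      congr 1
      push_cast
      ring
    have e3 : Complex.exp (k * ((p.2 - s : ℝ) : ℂ) * I) =
        Complex.exp (k * p.2 * I) * Complex.exp (-(k * s : ℂ) * I) := by
      rw [← Complex.exp_add]
      congr 1
      push_cast
      ring
    have e4 : ((2 * Real.cos (k * s) : ℝ) : ℂ) = Complex.exp ((k * s : ℂ) * I) +
        Complex.exp (-(k * s : ℂ) * I) := by
      rw [← Complex.two_cos]
      push_cast
      rfl
    rw [e2, e3, e4]
    ring
  rw [← Complex.add_re, ← mul_add, e1]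
  rw [show um φ k p.1 * (((2 * Real.cos (k * s) : ℝ) : ℂ) * Complex.exp (k * p.2 * I)) =
    ((2 * Real.cos (k * s) : ℝ) : ℂ) * (um φ k p.1 * Complex.exp (k * p.2 * I)) by ring,
    Complex.re_ofReal_mul]

/-- The eigenvalue `lam` has multiplicity at most `d`: a linearly independent family of real
eigenfunctions has at most `d` members. -/
def MultiplicityLE (ρ : ℝ × ℝ → ℝ) (L α lam : ℝ) (d : ℕ) : Prop :=
  ∀ (n : ℕ) (f : Fin n → (ℝ × ℝ → ℝ)), (∀ i, Eigen ρ L α lam (f i)) → LinearIndependent ℝ f → n ≤ d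

/-- The number of frequencies is at most twice the multiplicity. -/
theorem freq_card {q : ℝ → ℝ} {φ φx φxx φy φyy : ℝ → ℝ → ℝ} (h : Sol q φ φx φxx φy φyy)
    (hper : ∀ x y, φ x (y + 2 * π) = φ x y) {r : ℝ → ℝ} {L α lam : ℝ} (hlam : 0 < lam)
    (hperx : ∀ x y, φ (x + L) (y + α) = φ x y) (hq : ∀ x, q x = lam * r x) {d : ℕ}
    (hd : MultiplicityLE (fun p => r p.1) L α lam d) (S : Finset ℤ)
    (hS : ∀ k ∈ S, ∃ x, um φ k x ≠ 0) : S.card ≤ 2 * d := by
  classical
  set T : Finset ℕ := S.image Int.natAbs with hT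
  have hch : ∀ n : T, ∃ k ∈ S, k.natAbs = n := by
    rintro ⟨n, hn⟩
    rw [hT, Finset.mem_image] at hn
    exact hn
  choose kk hkS hkn using hch
  obtain ⟨N, hN⟩ : ∃ N : ℕ, ∀ n ∈ T, n ≤ N := ⟨T.sup id, fun n hn => Finset.le_sup (f := id) hn⟩
  set s : ℝ := π / (N + 1) with hs
  have hs0 : 0 < s := by positivity
  have hcos : ∀ n : T, Real.cos (kk n * s) = Real.cos ((n : ℕ) * s) := by
    intro n
    have h1 : |(kk n : ℝ)| = ((n : ℕ) : ℝ) := by
      have := hkn n
      rw [← this]
      rw [← Int.cast_abs, Int.abs_eq_natAbs]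
      simp
    rw [← Real.cos_abs, abs_mul, abs_of_pos hs0, h1]
  have hli : LinearIndependent ℝ (fun n : T => psi φ (kk n)) := by
    refine Module.End.eigenvectors_linearIndependent' (TO s) (fun n : T => 2 * Real.cos (kk n * s))
      ?_ (fun n : T => psi φ (kk n)) ?_
    · intro n m hnm
      have h1 : Real.cos ((n : ℕ) * s) = Real.cos ((m : ℕ) * s) := by
        have := hnm
        simp only [hcos] at this
        linarith
      have hmem : ∀ n : T, ((n : ℕ) : ℝ) * s ∈ Set.Icc 0 π := by
        intro n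
        refine ⟨by positivity, ?_⟩
        have h2 : ((n : ℕ) : ℝ) ≤ N := by exact_mod_cast hN n n.2
        have h3 : ((n : ℕ) : ℝ) * s ≤ (N + 1) * s :=
          mul_le_mul_of_nonneg_right (by linarith) hs0.le
        refine h3.trans (le_of_eq ?_)
        rw [hs]
        field_simp
      have h2 := Real.injOn_cos (hmem n) (hmem m) h1
      have h3 : ((n : ℕ) : ℝ) = (m : ℕ) := mul_right_cancel₀ hs0.ne' h2
      exact Subtype.ext (by exact_mod_cast h3)
    · intro n
      refine ⟨?_, ?_⟩
      · rw [Module.End.mem_eigenspace_iff]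
        exact TO_psi φ (kk n) s
      · intro h0
        obtain ⟨p, hp⟩ := (psi_eigen h hper hlam hperx hq (hS _ (hkS n))).ne
        exact hp (congrFun h0 p)
  have hTd : T.card ≤ d := by
    have e := T.equivFin
    refine hd T.card (fun i => psi φ (kk (e.symm i))) (fun i => ?_) ?_
    · exact psi_eigen h hper hlam hperx hq (hS _ (hkS _))
    · exact hli.comp _ e.symm.injective
  have hsub : S ⊆ T.image (fun n : ℕ => (n : ℤ)) ∪ T.image (fun n : ℕ => -(n : ℤ)) := by
    intro k hk
    have h1 : k.natAbs ∈ T := Finset.mem_image_of_mem _ hk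
    rw [Finset.mem_union, Finset.mem_image, Finset.mem_image]
    rcases Int.natAbs_eq k with h2 | h2
    · left
      exact ⟨k.natAbs, h1, h2.symm⟩
    · right
      exact ⟨k.natAbs, h1, h2.symm⟩
  calc S.card ≤ (T.image (fun n : ℕ => (n : ℤ)) ∪ T.image (fun n : ℕ => -(n : ℤ))).card :=
        Finset.card_le_card hsub
    _ ≤ _ := Finset.card_union_le _ _
    _ ≤ T.card + T.card := add_le_add Finset.card_image_le Finset.card_image_le
    _ ≤ 2 * d := by omega

end Pool.Agent.R220.TI
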