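import Pool.Agent.R220.TI.Loc
import Pool.Agent.R220.TI.Mult

/-!
# Doubling indices and multiplicity on tori with a circle action
-/

set_option autoImplicit false
set_option linter.unusedSectionVars false
set_option linter.unusedVariables false

namespace Pool.Agent.R220.TI

open MeasureTheory Complex Real Pool.Agent.Y291.DB Pool.Agent.Y291.PA

/-- From the distribution to the average. -/
theorem avg {ι : Type} [Fintype ι] (v : ι → ℝ) {a V : ℝ} (hV : 1 ≤ V) (ha : 0 ≤ a)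
    (hv : ∀ i, v i ≤ V)
    (hw : ∀ t : ℝ, 0 < t → (({i | t ≤ v i}.ncard : ℕ) : ℝ) ≤ a / t * Fintype.card ι) :
    ∑ i, v i ≤ (1 + a * (Real.log V / Real.log 2 + 1)) * Fintype.card ι := by
  classical
  have hlog : 0 < Real.log 2 := Real.log_pos one_lt_two
  have hlV : 0 ≤ Real.log V := Real.log_nonneg hV
  set J : ℕ := ⌊Real.log V / Real.log 2⌋₊ + 1 with hJ
  have hJ1 : V < 2 ^ J := by
    have h1 : Real.log V / Real.log 2 < J := by
      rw [hJ]
      push_cast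
      exact Nat.lt_floor_add_one _
    rw [div_lt_iff₀ hlog, ← Real.log_pow] at h1
    exact (Real.log_lt_log_iff (by linarith) (by positivity)).1 h1
  have hJ2 : (J : ℝ) ≤ Real.log V / Real.log 2 + 1 := by
    rw [hJ]
    push_cast
    have := Nat.floor_le (a := Real.log V / Real.log 2) (by positivity)
    linarith
  have h1 : ∀ i, v i ≤ 1 + ∑ k ∈ Finset.range J, (2 : ℝ) ^ k * (if (2 : ℝ) ^ k ≤ v i then 1 else 0) :=
    fun i => dyadic (v i) J ((hv i).trans_lt hJ1)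
  have hn0 : (0 : ℝ) ≤ Fintype.card ι := Nat.cast_nonneg _
  calc ∑ i, v i ≤ ∑ i, (1 + ∑ k ∈ Finset.range J, (2 : ℝ) ^ k *
        (if (2 : ℝ) ^ k ≤ v i then 1 else 0)) := Finset.sum_le_sum fun i _ => h1 i
    _ = Fintype.card ι + ∑ k ∈ Finset.range J, (2 : ℝ) ^ k *
        ∑ i, (if (2 : ℝ) ^ k ≤ v i then (1 : ℝ) else 0) := by
        rw [Finset.sum_add_distrib, Finset.sum_comm]
        congr 1
        · simp
        · exact Finset.sum_congr rfl fun k _ => (Finset.mul_sum _ _ _).symm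
    _ ≤ Fintype.card ι + ∑ k ∈ Finset.range J, a * Fintype.card ι := by
        refine add_le_add le_rfl (Finset.sum_le_sum fun k _ => ?_)
        have h2 : ∑ i, (if (2 : ℝ) ^ k ≤ v i then (1 : ℝ) else 0) =
            (({i | (2 : ℝ) ^ k ≤ v i}.ncard : ℕ) : ℝ) := by
          rw [Finset.sum_boole]
          congr 1
          rw [← Set.ncard_coe_finset]
          congr 1
          ext i
          simp
        rw [h2]
        have h3 := hw (2 ^ k) (by positivity)
        calc (2 : ℝ) ^ k * (({i | (2 : ℝ) ^ k ≤ v i}.ncard : ℕ) : ℝ)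
            ≤ 2 ^ k * (a / 2 ^ k * Fintype.card ι) := by gcongr
          _ = a * Fintype.card ι := by field_simp
    _ = (1 + a * J) * Fintype.card ι := by
        rw [Finset.sum_const, Finset.card_range, nsmul_eq_mul]
        ring
    _ ≤ (1 + a * (Real.log V / Real.log 2 + 1)) * Fintype.card ι := by gcongr

/-- The constant `E`. -/
noncomputable def cE (β κ A C1 : ℝ) : ℝ := 2 * Real.sqrt (2 * C1 * (1 + 16 * κ * β)) *
  (1 + (A + 2) / (4 * β)) * Real.exp (2 * κ ^ 2 * (A + 2) ^ 2 + 1)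

/-- The constant `D`. -/
noncomputable def cD (β κ A : ℝ) : ℝ := (2 * A + 2 + 4 * β) / (4 * β) * (1 + 16 * κ * β) + 4

/-- All doubling indices are bounded by the number of frequencies. -/
theorem max_bound {r : ℝ → ℝ} {L α ρm ρM : ℝ} (hL : 0 < L) (hrc : Continuous r)
    (hrx : ∀ x, r (x + L) = r x) (hρ0 : 0 < ρm) (hρm : ∀ x, ρm ≤ r x) (hρM : ∀ x, r x ≤ ρM)
    {C β A : ℝ} (hC : 0 < C) (hβ : 0 < β) (hβ1 : β ≤ 1) (hβC : 8 * β * Real.sqrt ρM ≤ C)
    (hA : 6 * C / Real.sqrt ρm + 3 * L + 6 * π ≤ A) {lam : ℝ} {K : ℕ} {φ : ℝ × ℝ → ℝ}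
    (hd : ∀ S : Finset ℤ, (∀ k ∈ S, ∃ x, um (fun x y => φ (x, y)) k x ≠ 0) → S.card ≤ K)
    (hφ : Eigen (fun p => r p.1) L α lam φ) (p : ℝ × ℝ) :
    doubling (fun p => r p.1) L α φ p (C / Real.sqrt lam) ≤
      (cE β (Real.sqrt ρM) A (129 + 64 * β ^ 2 * ρM) + cD β (Real.sqrt ρM) A * K) /
        Real.log 2 := by
  classical
  have hlog : 0 < Real.log 2 := Real.log_pos one_lt_two
  have hlam := hφ.pos
  have hρM0 : 0 < ρM := hρ0.trans_le ((hρm 0).trans (hρM 0))
  have hA0 : 0 ≤ A := le_trans (by positivity) hA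
  have hρc : Continuous fun p : ℝ × ℝ => r p.1 := hrc.comp continuous_fst
  obtain ⟨φx, φxx, φy, φyy, hs2⟩ := sol_of_eigen hρc hφ
  have hsol : Sol (fun x => lam * r x) (fun x y => φ (x, y)) φx φxx φy φyy :=
    ⟨by fun_prop, hs2.c, hs2.cx, hs2.cxx, hs2.cy, hs2.cyy, hs2.dx, hs2.dxx, hs2.dy, hs2.dyy,
      hs2.pde⟩
  have hper : ∀ x y, (fun x y => φ (x, y)) x (y + 2 * π) = (fun x y => φ (x, y)) x y := fun x y =>
    hφ.pery (x, y)
  have hperx : ∀ x y, (fun x y => φ (x, y)) (x + L) (y + α) = (fun x y => φ (x, y)) x y :=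
    fun x y => hφ.perx (x, y)
  set Q : ℝ := lam * ρM with hQdef
  have hQ0 : 0 < Q := by positivity
  have hqQ : ∀ x, lam * r x ≤ Q := fun x => mul_le_mul_of_nonneg_left (hρM x) hlam.le
  have hqabs : ∀ x, |lam * r x| ≤ Q := by
    intro x
    have h1 : 0 ≤ lam * r x := mul_nonneg hlam.le (hρ0.le.trans (hρm x))
    rw [abs_of_nonneg h1]
    exact hqQ x
  obtain ⟨N, hN⟩ := exists_nat_ge (Real.sqrt Q)
  set S : Finset ℤ := (Finset.Icc (-(N : ℤ)) N).filter
    (fun k => ∃ x, um (fun x y => φ (x, y)) k x ≠ 0) with hS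
  have hSne : ∀ k ∈ S, ∃ x, um (fun x y => φ (x, y)) k x ≠ 0 := fun k hk =>
    (Finset.mem_filter.1 hk).2
  have hbig : ∀ k : ℤ, Q < (k : ℝ) ^ 2 → ∀ x, um (fun x y => φ (x, y)) k x = 0 := fun k hk x =>
    um_zero' hsol hper hL hperx hqQ hk x
  have hSQ : ∀ k ∈ S, (k : ℝ) ^ 2 ≤ Q := by
    intro k hk
    by_contra h1
    obtain ⟨x, hx⟩ := hSne k hk
    exact hx (hbig k (not_le.1 h1) x)
  have hS1 : ∀ k : ℤ, k ∉ S → ∀ x, um (fun x y => φ (x, y)) k x = 0 := by
    intro k hk x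
    by_contra h1
    apply hk
    rw [hS, Finset.mem_filter]
    refine ⟨?_, x, h1⟩
    have h2 : (k : ℝ) ^ 2 ≤ Q := by
      by_contra h3
      exact h1 (hbig k (not_le.1 h3) x)
    rw [Finset.mem_Icc, ← abs_le]
    have h3 : |(k : ℝ)| ≤ N := by
      rw [← Real.sqrt_sq_eq_abs]
      exact (Real.sqrt_le_sqrt h2).trans hN
    exact_mod_cast h3
  have hSd : S.card ≤ K := hd S hSne
  have hS0 : 1 ≤ S.card := by
    rw [Nat.one_le_iff_ne_zero, Finset.card_ne_zero]
    by_contra h1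
    rw [Finset.not_nonempty_iff_eq_empty] at h1
    obtain ⟨p, hp⟩ := hφ.ne
    apply hp
    have h2 := (expand hsol hper hS1 hSQ p.1 p.2).1
    rw [h1, Finset.sum_empty] at h2
    exact_mod_cast h2
  have hδ := dl_pos hlam
  have hδ2 := dl_sq hlam
  have hlamδ : lam * (4 * dl lam ^ 2) ≤ 1 := by
    rw [hδ2, mul_one_div, div_le_one (by linarith)]
    linarith
  have hQδ : Q * dl lam ^ 2 ≤ Real.sqrt ρM ^ 2 := by
    rw [Real.sq_sqrt hρM0.le, hQdef]
    nlinarith [mul_le_mul_of_nonneg_left hlamδ hρM0.le, sq_nonneg (dl lam), mul_pos hlam hρM0,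
      mul_nonneg (mul_pos hlam hρM0).le (sq_nonneg (dl lam))]
  have hQb : 129 + 16 * Q * (4 * β * dl lam) ^ 2 ≤ 129 + 64 * β ^ 2 * ρM := by
    have h1 : 16 * Q * (4 * β * dl lam) ^ 2 = 64 * β ^ 2 * ρM * (lam * (4 * dl lam ^ 2)) := by
      rw [hQdef]
      ring
    rw [h1]
    have h2 : 64 * β ^ 2 * ρM * (lam * (4 * dl lam ^ 2)) ≤ 64 * β ^ 2 * ρM * 1 := by gcongr
    linarith
  have hG : Growth φ lam β A (cE β (Real.sqrt ρM) A (129 + 64 * β ^ 2 * ρM))
      (cD β (Real.sqrt ρM) A) (6 * π * S.card) S.card (fun _ _ => (S.card : ℝ)) := by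
    refine ⟨?_, ?_, ?_⟩
    · intro x0 y0 S0 hS00 hbox
      obtain ⟨m1, m2⟩ := XX_meas (x0 := x0) (y0 := y0) (b := 4 * β * dl lam) (S := S0) (Q := Q)
        hsol hper (by positivity) hS00 hbox hqQ hQ0.le hQb
      refine ⟨_, m1, ?_, ?_, ?_⟩
      · intro x hx
        obtain ⟨h1, h2⟩ := hx.1
        constructor <;> linarith
      · refine le_trans (le_of_eq ?_) m2
        congr 1
        ring
      · intro x hx y hy x' y' hx' hy'
        exact local_sparse hsol hper hS1 hSQ hδ hβ hA0 hS00 hqabs hQδ hβ1 (Real.sqrt_nonneg _)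
          (by positivity) hS0 hx hx' hy'
    · intro x s hs
      rcases le_or_gt s (S.card : ℝ) with h1 | h1
      · refine (measure_mono (fun y hy => hy.1 : _ ⊆ Set.Ioc (-(2 * π)) (4 * π))).trans ?_
        rw [Real.volume_Ioc]
        refine ENNReal.ofReal_le_ofReal ?_
        rw [le_div_iff₀ hs]
        have hpi := Real.pi_pos
        nlinarith
      · have h2 : {y : ℝ | y ∈ Set.Ioc (-(2 * π)) (4 * π) ∧ s ≤ (S.card : ℝ)} = ∅ := by
          ext y
          simp only [Set.mem_ofPred_eq, Set.mem_empty_iff_false, iff_false, not_and, not_le]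
          intro _
          exact h1
        rw [h2, measure_empty]
        exact bot_le
    · intro x y
      have h1 := dl_le hlam
      rw [le_div_iff₀ hδ]
      have h2 : (0 : ℝ) ≤ S.card := Nat.cast_nonneg _
      nlinarith
  have hE0 : 0 ≤ cE β (Real.sqrt ρM) A (129 + 64 * β ^ 2 * ρM) := by
    unfold cE
    positivity
  have hD0 : 0 ≤ cD β (Real.sqrt ρM) A := by
    unfold cD
    positivity
  rcases le_or_gt (doubling (fun p => r p.1) L α φ p (C / Real.sqrt lam)) 0 with h0 | h0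
  · exact h0.trans (by positivity)
  · obtain ⟨X, -, -, hX, hX2⟩ := doubling_le hL hρc (fun p => hrx p.1) (fun p => rfl) hρ0
      (fun p => hρm p.1) (fun p => hρM p.1) hC hβ hβ1 hβC hA hφ hG p h0
    have hne : X.Nonempty := by
      by_contra h1
      rw [Set.not_nonempty_iff_eq_empty] at h1
      rw [h1, measure_empty, nonpos_iff_eq_zero, ENNReal.ofReal_eq_zero] at hX
      have : 0 < 2 * β * dl lam := by positivity
      linarith
    obtain ⟨x, hx⟩ := hne
    have h1 := hX2 x hx p.2 (by simpa using (by positivity : 0 ≤ β * dl lam))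
    rw [le_div_iff₀ hlog]
    refine h1.trans ?_
    have h2 : (S.card : ℝ) ≤ K := by exact_mod_cast hSd
    gcongr

/-- Doubling indices and number of frequencies. -/
theorem main {r : ℝ → ℝ} {L α : ℝ} (hL : 0 < L) (hrc : Continuous r) (hrpos : ∀ x, 0 < r x)
    (hrx : ∀ x, r (x + L) = r x) {C C₁ C₂ : ℝ} (hC : 0 < C) (hC1 : 0 < C₁) (hC2 : 0 < C₂) :
    ∃ a : ℝ, 0 < a ∧ ∀ (lam : ℝ) (K : ℕ) (φ : ℝ × ℝ → ℝ), Eigen (fun p => r p.1) L α lam φ →
        (∀ S : Finset ℤ, (∀ k ∈ S, ∃ x, um (fun x y => φ (x, y)) k x ≠ 0) → S.card ≤ K) →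
        1 ≤ K →
        (∀ p, doubling (fun p => r p.1) L α φ p (C / Real.sqrt lam) ≤ a * K) ∧
        ∀ (ι : Type) [Fintype ι] (c : ι → ℝ × ℝ),
          Admissible (fun p => r p.1) L α lam φ C C₁ C₂ c →
          ∑ i, doubling (fun p => r p.1) L α φ (c i) (C / Real.sqrt lam) ≤
            a * (1 + Real.log K) * Fintype.card ι := by
  have hlog : 0 < Real.log 2 := Real.log_pos one_lt_two
  have hρc : Continuous fun p : ℝ × ℝ => r p.1 := hrc.comp continuous_fst
  have hρx : ∀ p : ℝ × ℝ, (fun p : ℝ × ℝ => r p.1) (p.1 + L, p.2 + α) = (fun p : ℝ × ℝ => r p.1) p :=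
    fun p => hrx p.1
  have hρy : ∀ p : ℝ × ℝ, (fun p : ℝ × ℝ => r p.1) (p.1, p.2 + 2 * π) = (fun p : ℝ × ℝ => r p.1) p :=
    fun p => rfl
  obtain ⟨ρm, hρm0, hρm⟩ := bounded_below_of_per hL hρc (fun p => hrpos p.1) hρx hρy
  obtain ⟨ρM, hρM0', hρM'⟩ := bounded_of_per hL hρc hρx hρy
  have hρM : ∀ p : ℝ × ℝ, r p.1 ≤ ρM := fun p => (le_abs_self _).trans (hρM' p)
  have hρM0 : 0 < ρM := (hrpos 0).trans_le (hρM (0, 0))
  have hρa : AnalyticInSecond fun p : ℝ × ℝ => r p.1 := by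
    refine ⟨1, ρM, fun x _ => (r x : ℂ), one_pos, fun x => ⟨differentiableOn_const _, ?_, ?_⟩⟩
    · intro z _
      rw [Complex.norm_real, Real.norm_eq_abs]
      exact hρM' (x, 0)
    · intro y
      rfl
  obtain ⟨a0, ha0, hPA⟩ := Pool.Agent.Y291.PA.main hL hρc (fun p => hrpos p.1) hρx hρy hρa hC hC1 hC2
  have hsM : 0 < Real.sqrt ρM := Real.sqrt_pos.2 hρM0
  obtain ⟨β, hβ, hβ1, hβC⟩ : ∃ β : ℝ, 0 < β ∧ β ≤ 1 ∧ 8 * β * Real.sqrt ρM ≤ C := by
    refine ⟨min 1 (C / (8 * Real.sqrt ρM)), lt_min one_pos (by positivity), min_le_left _ _, ?_⟩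
    have h1 := min_le_right 1 (C / (8 * Real.sqrt ρM))
    calc 8 * min 1 (C / (8 * Real.sqrt ρM)) * Real.sqrt ρM
        ≤ 8 * (C / (8 * Real.sqrt ρM)) * Real.sqrt ρM := by gcongr
      _ = C := by field_simp
  set A : ℝ := 6 * C / Real.sqrt ρm + 3 * L + 6 * π with hA
  have hA0 : 0 ≤ A := by positivity
  set E : ℝ := cE β (Real.sqrt ρM) A (129 + 64 * β ^ 2 * ρM) with hE
  set D : ℝ := cD β (Real.sqrt ρM) A with hD
  have hE0 : 0 ≤ E := by
    rw [hE]
    unfold cE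
    positivity
  have hD0 : 0 ≤ D := by
    rw [hD]
    unfold cD
    positivity
  set V1 : ℝ := (E + D) / Real.log 2 + 1 with hV1
  have hV11 : 1 ≤ V1 := by
    have : 0 ≤ (E + D) / Real.log 2 := by positivity
    linarith
  have hlV1 : 0 ≤ Real.log V1 := Real.log_nonneg hV11
  set a : ℝ := V1 + (1 + a0 * (Real.log V1 / Real.log 2 + 1) + a0 / Real.log 2) with ha
  have ha' : V1 ≤ a := by
    have : 0 ≤ 1 + a0 * (Real.log V1 / Real.log 2 + 1) + a0 / Real.log 2 := by positivity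
    linarith
  refine ⟨a, by positivity, fun lam d φ hφ hd hd1 => ?_⟩
  have hd1' : (1 : ℝ) ≤ d := by exact_mod_cast hd1
  have hmax : ∀ p, doubling (fun p => r p.1) L α φ p (C / Real.sqrt lam) ≤ V1 * d := by
    intro p
    refine (max_bound hL hrc hrx hρm0 (fun x => hρm (x, 0)) (fun x => hρM (x, 0)) hC hβ hβ1 hβC
      le_rfl hd hφ p).trans ?_
    rw [← hA, ← hE, ← hD, hV1, div_le_iff₀ hlog]
    have e1 : ((E + D) / Real.log 2 + 1) * d * Real.log 2 = (E + D) * d + d * Real.log 2 := by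
      field_simp
    rw [e1]
    have h1 : E ≤ E * d := le_mul_of_one_le_right hE0 hd1'
    have h2 : 0 ≤ (d : ℝ) * Real.log 2 := by positivity
    nlinarith
  refine ⟨fun p => (hmax p).trans (by gcongr), fun ι _ c hc => ?_⟩
  obtain ⟨hw, -⟩ := hPA lam φ hφ ι c hc
  have hV : 1 ≤ V1 * d := by nlinarith
  have h1 := avg (fun i => doubling (fun p => r p.1) L α φ (c i) (C / Real.sqrt lam)) hV ha0.le
    (fun i => hmax (c i)) hw
  refine h1.trans ?_
  have hn0 : (0 : ℝ) ≤ Fintype.card ι := Nat.cast_nonneg _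
  refine mul_le_mul_of_nonneg_right ?_ hn0
  have hld : 0 ≤ Real.log d := Real.log_nonneg hd1'
  have e1 : Real.log (V1 * d) = Real.log V1 + Real.log d :=
    Real.log_mul (by positivity) (by positivity)
  rw [e1]
  have e2 : 1 + a0 * ((Real.log V1 + Real.log d) / Real.log 2 + 1) =
      (1 + a0 * (Real.log V1 / Real.log 2 + 1)) + a0 / Real.log 2 * Real.log d := by
    ring
  rw [e2]
  have h2 : 0 ≤ a0 / Real.log 2 := by positivity
  have h3 : 0 ≤ 1 + a0 * (Real.log V1 / Real.log 2 + 1) := by positivity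
  have h4 : a * (1 + Real.log d) = V1 * (1 + Real.log d) +
      (1 + a0 * (Real.log V1 / Real.log 2 + 1)) * (1 + Real.log d) +
      a0 / Real.log 2 * (1 + Real.log d) := by
    rw [ha]
    ring
  rw [h4]
  have h5 : 0 ≤ V1 * (1 + Real.log d) := by positivity
  nlinarith [mul_nonneg h3 hld]

/-- An eigenfunction with multiplicity at most `d` has at most `2 d` frequencies. -/
theorem freq_of_mult {r : ℝ → ℝ} {L α lam : ℝ} (hrc : Continuous r) {d : ℕ} {φ : ℝ × ℝ → ℝ}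
    (hd : MultiplicityLE (fun p => r p.1) L α lam d) (hφ : Eigen (fun p => r p.1) L α lam φ)
    (S : Finset ℤ) (hS : ∀ k ∈ S, ∃ x, um (fun x y => φ (x, y)) k x ≠ 0) : S.card ≤ 2 * d := by
  have hlam := hφ.pos
  have hρc : Continuous fun p : ℝ × ℝ => r p.1 := hrc.comp continuous_fst
  obtain ⟨φx, φxx, φy, φyy, hs2⟩ := sol_of_eigen hρc hφ
  have hsol : Sol (fun x => lam * r x) (fun x y => φ (x, y)) φx φxx φy φyy :=
    ⟨by fun_prop, hs2.c, hs2.cx, hs2.cxx, hs2.cy, hs2.cyy, hs2.dx, hs2.dxx, hs2.dy, hs2.dyy,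
      hs2.pde⟩
  have hper : ∀ x y, (fun x y => φ (x, y)) x (y + 2 * π) = (fun x y => φ (x, y)) x y := fun x y =>
    hφ.pery (x, y)
  have hperx : ∀ x y, (fun x y => φ (x, y)) (x + L) (y + α) = (fun x y => φ (x, y)) x y :=
    fun x y => hφ.perx (x, y)
  exact freq_card hsol hper hlam hperx (fun x => rfl) hd S hS

/-- The multiplicity is positive. -/
theorem mult_pos {ρ : ℝ × ℝ → ℝ} {L α lam : ℝ} {d : ℕ} {φ : ℝ × ℝ → ℝ}
    (hd : MultiplicityLE ρ L α lam d) (hφ : Eigen ρ L α lam φ) : 1 ≤ d := by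
  refine hd 1 (fun _ => φ) (fun _ => hφ) ?_
  rw [linearIndependent_unique_iff]
  intro h0
  obtain ⟨p, hp⟩ := hφ.ne
  exact hp (congrFun h0 p)

end Pool.Agent.R220.TI
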