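import Pool.Agent.R220.TI.Turan
import Pool.Agent.Y291.DB.Local
import Pool.Agent.Y291.DB.Count

/-!
# The local estimate for solutions with few frequencies
-/

set_option autoImplicit false
set_option linter.unusedSectionVars false
set_option linter.unusedVariables false

namespace Pool.Agent.R220.TI

open MeasureTheory Complex Real Pool.Agent.Y291.DB

/-- There is a translate of an arithmetic progression on which the values of `g` are small. -/
theorem exists_nodes {g : ℝ → ℝ} (hg : Continuous g) (hg0 : ∀ t, 0 ≤ g t) {a b h m : ℝ} (J : ℕ)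
    (hh : 0 < h) (hJ : J * h ≤ b) (hm : ∫ t in a..(a + b), g t ≤ m) :
    ∃ s ∈ Set.Icc (0 : ℝ) h, ∀ j < J, g (a + s + j * h) ≤ m / h := by
  set G : ℝ → ℝ := fun s => ∑ j ∈ Finset.range J, g (a + s + j * h) with hG
  have hGc : Continuous G := by
    refine continuous_finsetSum _ fun j _ => ?_
    fun_prop
  obtain ⟨s, hs, hmin⟩ := isCompact_Icc.exists_isMinOn (Set.nonempty_Icc.2 hh.le) hGc.continuousOn
  refine ⟨s, hs, fun j hj => ?_⟩
  have h1 : g (a + s + j * h) ≤ G s :=
    Finset.single_le_sum (f := fun j : ℕ => g (a + s + j * h)) (fun i _ => hg0 _)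
      (Finset.mem_range.2 hj)
  refine h1.trans ?_
  rw [le_div_iff₀ hh]
  have h2 : G s * h ≤ ∫ u in (0 : ℝ)..h, G u := by
    have h3 : ∫ u in (0 : ℝ)..h, G s ≤ ∫ u in (0 : ℝ)..h, G u :=
      intervalIntegral.integral_mono_on hh.le intervalIntegrable_const
        (hGc.intervalIntegrable _ _) fun u hu => hmin hu
    rw [intervalIntegral.integral_const, smul_eq_mul, sub_zero] at h3
    linarith
  refine h2.trans ?_
  have h3 : ∫ u in (0 : ℝ)..h, G u = ∫ u in a..(a + J * h), g u := by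
    simp only [hG]
    rw [intervalIntegral.integral_finsetSum fun j _ =>
      Continuous.intervalIntegrable (by fun_prop) _ _]
    have h4 := intervalIntegral.sum_integral_adjacent_intervals (f := g) (μ := volume)
      (a := fun j : ℕ => a + j * h) (n := J) fun k _ => hg.intervalIntegrable _ _
    have h5 : ∫ u in a..(a + J * h), g u = ∫ u in (a + (0 : ℕ) * h)..(a + J * h), g u := by simp
    rw [h5, ← h4]
    refine Finset.sum_congr rfl fun j _ => ?_
    have h6 := intervalIntegral.integral_comp_add_left (a := 0) (b := h) (f := g) (a + j * h)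
    calc ∫ u in (0 : ℝ)..h, g (a + u + j * h) = ∫ u in (0 : ℝ)..h, g (a + j * h + u) :=
          intervalIntegral.integral_congr fun u _ => by
            show g (a + u + j * h) = g (a + j * h + u)
            congr 1
            ring
      _ = ∫ u in (a + j * h + 0)..(a + j * h + h), g u := h6
      _ = ∫ u in (a + j * h)..(a + ((j + 1 : ℕ) : ℝ) * h), g u := by
          congr 1
          · ring
          · push_cast
            ring
  rw [h3]
  refine le_trans ?_ hm
  have hJ0 : 0 ≤ (J : ℝ) * h := by positivity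
  exact intervalIntegral.integral_mono_interval le_rfl (by linarith) (by linarith)
    (Filter.Eventually.of_forall hg0) (hg.intervalIntegrable _ _)

section local_

variable {q : ℝ → ℝ} {φ φx φxx φy φyy : ℝ → ℝ → ℝ} (h : Sol q φ φx φxx φy φyy)
  (hper : ∀ x y, φ x (y + 2 * π) = φ x y) {S : Finset ℤ} {Q : ℝ}
  (hS1 : ∀ k : ℤ, k ∉ S → ∀ x, um φ k x = 0) (hSQ : ∀ k ∈ S, (k : ℝ) ^ 2 ≤ Q)

include h hper hS1 hSQ

theorem abs_le_sqrtQ (k : ℤ) (hk : k ∈ S) : |(k : ℝ)| ≤ Real.sqrt Q := by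
  rw [← Real.sqrt_sq_eq_abs]
  exact Real.sqrt_le_sqrt (hSQ k hk)

theorem expand (x y : ℝ) : (φ x y : ℂ) = ∑ k ∈ S, um φ k x * Complex.exp (k * y * I) ∧
    (φx x y : ℂ) = ∑ k ∈ S, um φx k x * Complex.exp (k * y * I) := by
  obtain ⟨N, hN⟩ := exists_nat_ge (Real.sqrt Q)
  have hsub : S ⊆ Finset.Icc (-(N : ℤ)) N := by
    intro k hk
    rw [Finset.mem_Icc, ← abs_le]
    have h1 := (abs_le_sqrtQ h hper hS1 hSQ k hk).trans hN
    exact_mod_cast h1
  have hinv : ∀ x, ∀ k : ℤ, (N : ℤ) < |k| → um φ k x = 0 := by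
    intro x k hk
    refine hS1 k (fun hk' => ?_) x
    have := hsub hk'
    rw [Finset.mem_Icc, ← abs_le] at this
    omega
  constructor
  · rw [inversion h hper x (hinv x) y]
    symm
    refine Finset.sum_subset hsub fun k _ hk => ?_
    rw [hS1 k hk, zero_mul]
  · rw [inversion' h hper hinv x y]
    symm
    refine Finset.sum_subset hsub fun k _ hk => ?_
    have h1 : um φ k = fun _ => 0 := funext fun t => hS1 k hk t
    have h2 := um_d1 h hper k x
    rw [h1] at h2
    rw [h2.unique (hasDerivAt_const x (0 : ℂ)), zero_mul]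

/-- The local estimate for solutions with `J` frequencies. -/
theorem local_sparse {δ β κ A x0 y0 S0 C1 : ℝ} (hδ0 : 0 < δ) (hβ0 : 0 < β) (hA : 0 ≤ A)
    (hS0 : 0 < S0) (hQ : ∀ x, |q x| ≤ Q) (hQδ : Q * δ ^ 2 ≤ κ ^ 2) (hβ : β ≤ 1)
    (hκ : 0 ≤ κ) (hC1 : 0 < C1) (hJ : 1 ≤ S.card)
    {x : ℝ} (hx : x ∈ XX φ φx (4 * β * δ) x0 y0 (2 * C1 * (4 * β * δ) * S0 ^ 2))
    {x' y' : ℝ} (hx' : |x' - x0| ≤ A * δ) (hy' : |y' - y0| ≤ A * δ) :
    |φ x' y'| ≤ S0 * Real.exp (2 * Real.sqrt (2 * C1 * (1 + 16 * κ * β)) *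
      (1 + (A + 2) / (4 * β)) * Real.exp (2 * κ ^ 2 * (A + 2) ^ 2 + 1) +
      ((2 * A + 2 + 4 * β) / (4 * β) * (1 + 16 * κ * β) + 4) * S.card) := by
  set J : ℕ := S.card with hJdef
  have hJ0 : (1 : ℝ) ≤ J := by exact_mod_cast hJ
  have hQ0 : 0 ≤ Q := (abs_nonneg _).trans (hQ 0)
  set w : ℝ := 1 + 16 * κ * β with hw
  have hw1 : 1 ≤ w := by
    have : 0 ≤ 16 * κ * β := by positivity
    linarith
  set b : ℝ := 4 * β * δ with hb
  have hb0 : 0 < b := by positivity
  set hh : ℝ := b / (w * J) with hhh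
  have hh0 : 0 < hh := by positivity
  have hJh : J * hh ≤ b := by
    rw [hhh]
    have : (J : ℝ) * (b / (w * J)) = b / w := by field_simp
    rw [this]
    exact div_le_self hb0.le hw1
  have hsQ : Real.sqrt Q * δ ≤ κ := by
    rw [← Real.sqrt_sq hδ0.le, ← Real.sqrt_mul hQ0]
    refine (Real.sqrt_le_sqrt hQδ).trans ?_
    rw [Real.sqrt_sq hκ]
  have hKh : Real.sqrt Q * hh ≤ 1 / 4 := by
    have h1 : Real.sqrt Q * hh = (Real.sqrt Q * δ) * (4 * β) / (w * J) := by
      rw [hhh, hb]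
      ring
    rw [h1, div_le_iff₀ (by positivity)]
    have h2 : Real.sqrt Q * δ * (4 * β) ≤ κ * (4 * β) := by gcongr
    have h3 : w ≤ w * J := le_mul_of_one_le_right (by linarith) hJ0
    have h4 : w = 1 + 16 * κ * β := rfl
    nlinarith
  -- the nodes
  have c1 : Continuous (fun p : ℝ × ℝ => φ p.1 p.2) := h.c
  have c2 : Continuous (fun p : ℝ × ℝ => φx p.1 p.2) := h.cx
  have hgc : Continuous fun t => φ x t ^ 2 + b ^ 2 * φx x t ^ 2 := by
    have d1 : Continuous fun t => φ x t := c1.comp (Continuous.prodMk_right x)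
    have d2 : Continuous fun t => φx x t := c2.comp (Continuous.prodMk_right x)
    fun_prop
  obtain ⟨s, hs, hnode⟩ := exists_nodes (a := y0 - b / 2) (b := b) (h := hh)
    (m := 2 * C1 * b * S0 ^ 2) hgc (fun t => by positivity) J hh0 hJh (by
      have := hx.2
      rw [show y0 - b / 2 + b = y0 + b / 2 by ring]
      exact this)
  set y1 : ℝ := y0 - b / 2 + s with hy1
  set M0 : ℝ := S0 * Real.sqrt (2 * C1 * w * J) with hM0
  have hM00 : 0 ≤ M0 := by positivity
  have hM0sq : 2 * C1 * b * S0 ^ 2 / hh = M0 ^ 2 := by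
    rw [hM0, mul_pow, Real.sq_sqrt (by positivity), hhh]
    field_simp
  have hn1 : ∀ j < J, |φ x (y1 + j * hh)| ≤ M0 ∧ |b * φx x (y1 + j * hh)| ≤ M0 := by
    intro j hj
    have h1 := hnode j hj
    rw [hM0sq] at h1
    constructor
    · refine abs_le_of_sq_le_sq ?_ hM00
      nlinarith [sq_nonneg (b * φx x (y1 + j * hh))]
    · refine abs_le_of_sq_le_sq ?_ hM00
      nlinarith [sq_nonneg (φ x (y1 + j * hh))]
  -- the complex points
  have hT1 : ∀ t : ℂ, ‖∑ k ∈ S, um φ k x * Complex.exp (k * (y1 + t) * I)‖ ≤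
      Real.exp (‖t‖ / hh) * 12 ^ J * M0 := by
    intro t
    refine turan hh0 (fun k hk => abs_le_sqrtQ h hper hS1 hSQ k hk) hKh hM00 (fun j hj => ?_) t
    have h1 := (expand h hper hS1 hSQ x (y1 + j * hh)).1
    have h2 : ∑ k ∈ S, um φ k x * Complex.exp (k * (y1 + j * hh) * I) = (φ x (y1 + j * hh) : ℂ) := by
      rw [h1]
      refine Finset.sum_congr rfl fun k _ => ?_
      push_cast
      rfl
    rw [h2, Complex.norm_real, Real.norm_eq_abs]
    exact (hn1 j hj).1
  have hT2 : ∀ t : ℂ, ‖∑ k ∈ S, um φx k x * Complex.exp (k * (y1 + t) * I)‖ ≤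
      Real.exp (‖t‖ / hh) * 12 ^ J * (M0 / b) := by
    intro t
    refine turan hh0 (fun k hk => abs_le_sqrtQ h hper hS1 hSQ k hk) hKh (by positivity)
      (fun j hj => ?_) t
    have h1 := (expand h hper hS1 hSQ x (y1 + j * hh)).2
    have h2 : ∑ k ∈ S, um φx k x * Complex.exp (k * (y1 + j * hh) * I) =
        (φx x (y1 + j * hh) : ℂ) := by
      rw [h1]
      refine Finset.sum_congr rfl fun k _ => ?_
      push_cast
      rfl
    rw [h2, Complex.norm_real, Real.norm_eq_abs, le_div_iff₀ hb0]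
    have h3 := (hn1 j hj).2
    rw [abs_mul, abs_of_pos hb0] at h3
    linarith
  -- propagation
  set R : ℝ := (A + 2) * δ with hR
  have hR0 : 0 < R := by positivity
  set T : ℝ := (2 * A + 2 + 4 * β) * δ with hT
  set M : ℝ := Real.exp (T / hh) * 12 ^ J * M0 with hM
  have hM' : 0 ≤ M := by positivity
  have hnorm : ∀ σ : ℝ, |σ| ≤ R → ‖(((y' - y1 : ℝ) : ℂ) + σ * I)‖ ≤ T := by
    intro σ hσ
    refine (norm_add_le _ _).trans ?_
    rw [norm_mul, Complex.norm_I, mul_one, Complex.norm_real, Complex.norm_real,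
      Real.norm_eq_abs, Real.norm_eq_abs]
    have h1 : |y' - y1| ≤ A * δ + b := by
      have e1 : y' - y1 = (y' - y0) - (y1 - y0) := by ring
      rw [e1]
      refine (abs_sub _ _).trans (add_le_add hy' ?_)
      rw [hy1, abs_le]
      have h2 : hh ≤ b := by
        refine le_trans ?_ hJh
        exact le_mul_of_one_le_left hh0.le hJ0
      constructor <;> linarith [hs.1, hs.2]
    rw [hT]
    have h3 : (2 * A + 2 + 4 * β) * δ = (A * δ + b) + R := by
      rw [hb, hR]
      ring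
    linarith
  set v : ℤ → ℝ → ℂ := fun k t => um φ k t * Complex.exp (k * y' * I) with hv
  set v' : ℤ → ℝ → ℂ := fun k t => um φx k t * Complex.exp (k * y' * I) with hv'
  have d1 : ∀ k ∈ S, ∀ t, HasDerivAt (v k) (v' k t) t := fun k _ t =>
    (um_d1 h hper k t).mul_const _
  have d2 : ∀ k ∈ S, ∀ t, HasDerivAt (v' k) ((((k : ℝ) ^ 2 - q t : ℝ) : ℂ) * v k t) t := by
    intro k _ t
    have := (um_d2 h hper k t).mul_const (Complex.exp (k * y' * I))
    convert! this using 1
    simp only [hv]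
    ring
  have hPs : ∀ (u : ℤ → ℝ → ℂ) (t σ : ℝ), Ps S (fun k t => u k t * Complex.exp (k * y' * I)) t σ =
      ∑ k ∈ S, u k t * Complex.exp (k * (y1 + (((y' - y1 : ℝ) : ℂ) + σ * I)) * I) := by
    intro u t σ
    unfold Ps
    refine Finset.sum_congr rfl fun k _ => ?_
    rw [mul_assoc, Complex.ofReal_exp, ← Complex.exp_add]
    congr 2
    push_cast
    have hI : I * I = -1 := Complex.I_mul_I
    linear_combination (-(k : ℂ) * σ) * hI
  have hxx : |x' - x| ≤ R := by
    have h1 : x' - x = (x' - x0) - (x - x0) := by ring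
    have h2 : |x - x0| ≤ b / 2 := abs_le.2 ⟨by linarith [hx.1.1], by linarith [hx.1.2]⟩
    rw [h1]
    refine (abs_sub _ _).trans ?_
    rw [hR]
    have : b / 2 ≤ 2 * δ := by
      rw [hb]
      nlinarith
    linarith
  have hprop := prop d1 d2 hR0 hQ (M := M) (M1 := M / b) (x0 := x)
    (fun σ hσ => by
      rw [hPs (fun k t => um φ k t)]
      refine (hT1 _).trans ?_
      rw [hM]
      have := hnorm σ hσ
      gcongr)
    (fun σ hσ => by
      rw [hPs (fun k t => um φx k t)]
      refine (hT2 _).trans ?_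
      have e5 : M / b = Real.exp (T / hh) * 12 ^ J * (M0 / b) := by
        rw [hM]
        ring
      rw [e5]
      have h5 := hnorm σ hσ
      refine mul_le_mul_of_nonneg_right (mul_le_mul_of_nonneg_right (Real.exp_le_exp.2 ?_)
        (by positivity)) (by positivity)
      gcongr) hxx
  rw [add_sub_cancel] at hprop
  have h1 : Ps S v x' 0 = φ x' y' := by
    rw [(expand h hper hS1 hSQ x' y').1]
    unfold Ps
    refine Finset.sum_congr rfl fun k _ => ?_
    simp [hv]
  rw [h1, Complex.norm_real, Real.norm_eq_abs] at hprop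
  refine hprop.trans ?_
  have h2 : R * (M / b) = M * ((A + 2) / (4 * β)) := by
    rw [hR, hb]
    field_simp
  have h3 : 2 * Q * R ^ 2 ≤ 2 * κ ^ 2 * (A + 2) ^ 2 := by
    have : 2 * Q * R ^ 2 = 2 * (Q * δ ^ 2) * (A + 2) ^ 2 := by
      rw [hR]
      ring
    rw [this]
    gcongr
  rw [h2]
  have hTh : T / hh = (2 * A + 2 + 4 * β) / (4 * β) * w * J := by
    rw [hT, hhh, hb]
    field_simp
  have h12 : (12 : ℝ) ^ J ≤ Real.exp (3 * J) := by
    have h5 : (12 : ℝ) ≤ Real.exp 3 := by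
      have h6 := Real.exp_one_gt_d9
      have h7 : Real.exp 3 = Real.exp 1 ^ 3 := by
        rw [← Real.exp_nat_mul]
        norm_num
      rw [h7]
      have h8 : (2.7 : ℝ) ≤ Real.exp 1 := by linarith
      calc (12 : ℝ) ≤ 2.7 ^ 3 := by norm_num
        _ ≤ Real.exp 1 ^ 3 := by gcongr
    calc (12 : ℝ) ^ J ≤ Real.exp 3 ^ J := by gcongr
      _ = Real.exp (3 * J) := by
          rw [← Real.exp_nat_mul]
          congr 1
          ring
  have hsq : Real.sqrt (2 * C1 * w * J) ≤ Real.sqrt (2 * C1 * w) * Real.exp J := by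
    rw [Real.sqrt_mul (by positivity)]
    refine mul_le_mul_of_nonneg_left ?_ (Real.sqrt_nonneg _)
    have h5 : Real.sqrt J ≤ J := by
      rw [Real.sqrt_le_left (by positivity)]
      nlinarith
    have h6 := Real.add_one_le_exp (J : ℝ)
    linarith
  set Cst : ℝ := 2 * Real.sqrt (2 * C1 * w) * (1 + (A + 2) / (4 * β)) *
    Real.exp (2 * κ ^ 2 * (A + 2) ^ 2 + 1) with hCst
  have hCe : Cst ≤ Real.exp Cst := by linarith [Real.add_one_le_exp Cst]
  calc 2 * (M + M * ((A + 2) / (4 * β))) * Real.exp (2 * Q * R ^ 2 + 1)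
      ≤ 2 * (M + M * ((A + 2) / (4 * β))) * Real.exp (2 * κ ^ 2 * (A + 2) ^ 2 + 1) := by gcongr
    _ = 2 * (1 + (A + 2) / (4 * β)) * Real.exp (2 * κ ^ 2 * (A + 2) ^ 2 + 1) *
        (Real.exp (T / hh) * 12 ^ J * (S0 * Real.sqrt (2 * C1 * w * J))) := by
          rw [hM, hM0]
          ring
    _ ≤ 2 * (1 + (A + 2) / (4 * β)) * Real.exp (2 * κ ^ 2 * (A + 2) ^ 2 + 1) *
        (Real.exp (T / hh) * Real.exp (3 * J) *
          (S0 * (Real.sqrt (2 * C1 * w) * Real.exp J))) := by gcongr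
    _ = S0 * (Cst * Real.exp (((2 * A + 2 + 4 * β) / (4 * β) * w + 4) * J)) := by
          rw [hCst, hTh]
          have e5 : Real.exp (((2 * A + 2 + 4 * β) / (4 * β) * w + 4) * J) =
              Real.exp ((2 * A + 2 + 4 * β) / (4 * β) * w * J) * Real.exp (3 * J) *
                Real.exp J := by
            rw [← Real.exp_add, ← Real.exp_add]
            congr 1
            ring
          rw [e5]
          ring
    _ ≤ S0 * (Real.exp Cst * Real.exp (((2 * A + 2 + 4 * β) / (4 * β) * w + 4) * J)) := by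
          gcongr
    _ = S0 * Real.exp (Cst + ((2 * A + 2 + 4 * β) / (4 * β) * w + 4) * J) := by
          rw [← Real.exp_add]

end local_

end Pool.Agent.R220.TI
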