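import Mathlib

/-!
# A Turán type inequality for exponential sums at complex points
-/

set_option autoImplicit false

namespace Pool.Agent.R220.TI

open Complex Finset

/-- A bound for a sum of simple poles by its first moments. -/
theorem resolvent {ι : Type*} [DecidableEq ι] (z : ι → ℂ) (ξ : ℂ) (S : Finset ι) :
    (∀ k ∈ S, ‖z k‖ ≤ 1) → (∀ k ∈ S, 1 / 4 ≤ ‖ξ - z k‖) →
    ∀ (b : ι → ℂ) (M : ℝ), 0 ≤ M → (∀ j < S.card, ‖∑ k ∈ S, b k * z k ^ j‖ ≤ M) →
      ‖∑ k ∈ S, b k / (ξ - z k)‖ ≤ 12 ^ S.card * M := by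
  induction S using Finset.induction_on with
  | empty => intro _ _ b M hM _; simpa using hM
  | insert k0 S hk0 ih =>
    intro hz hξ b M hM hp
    have hcard : (insert k0 S).card = S.card + 1 := Finset.card_insert_of_notMem hk0
    have hz0 := hz k0 (Finset.mem_insert_self _ _)
    have hξ0 := hξ k0 (Finset.mem_insert_self _ _)
    have h1 : ∀ j < S.card, ‖∑ k ∈ S, (b k * (z k - z k0)) * z k ^ j‖ ≤ 2 * M := by
      intro j hj
      have e : ∑ k ∈ S, (b k * (z k - z k0)) * z k ^ j =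
          (∑ k ∈ insert k0 S, b k * z k ^ (j + 1)) - z k0 * ∑ k ∈ insert k0 S, b k * z k ^ j := by
        rw [Finset.mul_sum, ← Finset.sum_sub_distrib, Finset.sum_insert hk0]
        have e0 : b k0 * z k0 ^ (j + 1) - z k0 * (b k0 * z k0 ^ j) = 0 := by ring
        rw [e0, zero_add]
        exact Finset.sum_congr rfl fun k _ => by ring
      rw [e]
      have a1 := hp (j + 1) (by omega)
      have a2 := hp j (by omega)
      calc ‖(∑ k ∈ insert k0 S, b k * z k ^ (j + 1)) - z k0 * ∑ k ∈ insert k0 S, b k * z k ^ j‖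
          ≤ ‖∑ k ∈ insert k0 S, b k * z k ^ (j + 1)‖ + ‖z k0 * ∑ k ∈ insert k0 S, b k * z k ^ j‖ :=
            norm_sub_le _ _
        _ ≤ M + 1 * M := by
            rw [norm_mul]
            gcongr
        _ = 2 * M := by ring
    have h2 := ih (fun k hk => hz k (Finset.mem_insert_of_mem hk))
      (fun k hk => hξ k (Finset.mem_insert_of_mem hk)) (fun k => b k * (z k - z k0)) (2 * M)
      (by positivity) h1
    have hne : ∀ k ∈ insert k0 S, ξ - z k ≠ 0 := by
      intro k hk h
      have := hξ k hk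
      rw [h, norm_zero] at this
      norm_num at this
    have e : ∑ k ∈ insert k0 S, b k / (ξ - z k) = (ξ - z k0)⁻¹ *
        ((∑ k ∈ insert k0 S, b k * z k ^ 0) + ∑ k ∈ S, (b k * (z k - z k0)) / (ξ - z k)) := by
      have e1 : ∑ k ∈ S, (b k * (z k - z k0)) / (ξ - z k) =
          ∑ k ∈ insert k0 S, (b k * (z k - z k0)) / (ξ - z k) := by
        rw [Finset.sum_insert hk0]
        simp
      rw [e1, ← Finset.sum_add_distrib, Finset.mul_sum]
      refine Finset.sum_congr rfl fun k hk => ?_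
      have a1 := hne k hk
      have a2 := hne k0 (Finset.mem_insert_self _ _)
      field_simp
      ring
    have hinv : ‖(ξ - z k0)⁻¹‖ ≤ 4 := by
      rw [norm_inv]
      calc ‖ξ - z k0‖⁻¹ ≤ (1 / 4)⁻¹ := by gcongr
        _ = 4 := by norm_num
    have h0 := hp 0 (by omega)
    rw [e, norm_mul, hcard]
    have h3 : ‖(∑ k ∈ insert k0 S, b k * z k ^ 0) + ∑ k ∈ S, (b k * (z k - z k0)) / (ξ - z k)‖ ≤
        M + 12 ^ S.card * (2 * M) := (norm_add_le _ _).trans (add_le_add h0 h2)
    have h4 : (1 : ℝ) ≤ 12 ^ S.card := one_le_pow₀ (by norm_num)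
    calc ‖(ξ - z k0)⁻¹‖ * ‖(∑ k ∈ insert k0 S, b k * z k ^ 0) +
          ∑ k ∈ S, (b k * (z k - z k0)) / (ξ - z k)‖
        ≤ 4 * (M + 12 ^ S.card * (2 * M)) := by gcongr
      _ ≤ 12 ^ (S.card + 1) * M := by
          rw [pow_succ]
          nlinarith

/-- The Turán type inequality: an exponential sum with frequencies `k ∈ S`, `|k| ≤ K`, is bounded at the
complex point `y + t` by its values at the `#S` real points `y + j h`, `j < #S`. -/
theorem turan {S : Finset ℤ} {c : ℤ → ℂ} {K h : ℝ} (hh : 0 < h) (hK : ∀ k ∈ S, |(k : ℝ)| ≤ K)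
    (hKh : K * h ≤ 1 / 4) {y M : ℝ} (hM0 : 0 ≤ M)
    (hM : ∀ j < S.card, ‖∑ k ∈ S, c k * Complex.exp (k * (y + j * h) * I)‖ ≤ M) (t : ℂ) :
    ‖∑ k ∈ S, c k * Complex.exp (k * (y + t) * I)‖ ≤
      Real.exp (‖t‖ / h) * 12 ^ S.card * M := by
  set z : ℤ → ℂ := fun k => Complex.exp (k * h * I) with hz
  set b : ℤ → ℂ := fun k => c k * Complex.exp (k * y * I) with hb
  have hkh : ∀ k ∈ S, |(k : ℝ) * h| ≤ 1 / 4 := by
    intro k hk
    rw [abs_mul, abs_of_pos hh]
    exact (mul_le_mul_of_nonneg_right (hK k hk) hh.le).trans hKh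
  have hz1 : ∀ k, ‖z k‖ = 1 := by
    intro k
    have : z k = Complex.exp (((k * h : ℝ) : ℂ) * I) := by simp [hz]
    rw [this, Complex.norm_exp_ofReal_mul_I]
  have hz2 : ∀ k ∈ S, ‖z k - 1‖ ≤ 1 / 4 := by
    intro k hk
    have : z k = Complex.exp (I * ((k * h : ℝ) : ℂ)) := by
      rw [mul_comm]
      simp [hz]
    rw [this]
    exact (Real.norm_exp_I_mul_ofReal_sub_one_le).trans (by
      rw [Real.norm_eq_abs]; exact hkh k hk)
  set F : ℂ → ℂ := fun ξ => Complex.exp (t / h * Complex.log ξ) with hF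
  have hslit : ∀ ξ ∈ Metric.closedBall (1 : ℂ) (1 / 2), ξ ∈ Complex.slitPlane := by
    intro ξ hξ
    left
    rw [Metric.mem_closedBall, dist_eq_norm] at hξ
    have h1 := (Complex.abs_re_le_norm (ξ - 1)).trans hξ
    rw [Complex.sub_re, Complex.one_re, abs_le] at h1
    linarith [h1.1]
  have hFd : DiffContOnCl ℂ F (Metric.ball 1 (1 / 2)) := by
    refine DifferentiableOn.diffContOnCl ?_
    rw [closure_ball _ (by norm_num)]
    intro ξ hξ
    have h1 : DifferentiableAt ℂ F ξ := by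
      have := (Complex.differentiableAt_log (hslit ξ hξ)).const_mul (t / h)
      exact this.cexp
    exact h1.differentiableWithinAt
  have hFz : ∀ k ∈ S, F (z k) = Complex.exp (k * t * I) := by
    intro k hk
    have h1 := hkh k hk
    rw [abs_le] at h1
    have hpi := Real.pi_gt_three
    have h2 : Complex.log (z k) = k * h * I := by
      simp only [hz]
      apply Complex.log_exp
      · have : ((k : ℂ) * h * I).im = k * h := by simp
        rw [this]
        linarith
      · have : ((k : ℂ) * h * I).im = k * h := by simp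
        rw [this]
        linarith
    simp only [hF]
    rw [h2]
    congr 1
    have : (h : ℂ) ≠ 0 := by exact_mod_cast hh.ne'
    field_simp
  have hcauchy : ∀ k ∈ S, (∮ ξ in C(1, 1 / 2), (ξ - z k)⁻¹ • F ξ) =
      (2 * Real.pi * I : ℂ) • F (z k) := by
    intro k hk
    refine hFd.circleIntegral_sub_inv_smul ?_
    rw [Metric.mem_ball, dist_eq_norm]
    exact (hz2 k hk).trans_lt (by norm_num)
  have hdist : ∀ k ∈ S, ∀ ξ ∈ Metric.sphere (1 : ℂ) (1 / 2), 1 / 4 ≤ ‖ξ - z k‖ := by
    intro k hk ξ hξ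
    rw [mem_sphere_iff_norm] at hξ
    have h1 : ξ - 1 = (ξ - z k) + (z k - 1) := by ring
    have h2 := norm_add_le (ξ - z k) (z k - 1)
    rw [← h1, hξ] at h2
    linarith [hz2 k hk]
  have hint : ∀ k ∈ S, CircleIntegrable (fun ξ => b k * ((ξ - z k)⁻¹ • F ξ)) 1 (1 / 2) := by
    intro k hk
    apply ContinuousOn.circleIntegrable (by norm_num)
    intro ξ hξ
    have h1 : ξ - z k ≠ 0 := by
      intro h
      have := hdist k hk ξ hξ
      rw [h, norm_zero] at this
      norm_num at this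
    have h2 : ContinuousAt F ξ := by
      have := (Complex.differentiableAt_log (hslit ξ (Metric.sphere_subset_closedBall hξ))).const_mul
        (t / h)
      exact this.cexp.continuousAt
    refine ContinuousAt.continuousWithinAt ?_
    have h3 : ContinuousAt (fun ξ => (ξ - z k)⁻¹) ξ :=
      (continuousAt_id.sub continuousAt_const).inv₀ h1
    exact continuousAt_const.mul (h3.smul h2)
  have hsum : ∑ k ∈ S, c k * Complex.exp (k * (y + t) * I) = (2 * Real.pi * I : ℂ)⁻¹ •
      ∮ ξ in C(1, 1 / 2), (∑ k ∈ S, b k / (ξ - z k)) * F ξ := by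
    have e1 : (∮ ξ in C(1, 1 / 2), (∑ k ∈ S, b k / (ξ - z k)) * F ξ) =
        ∑ k ∈ S, ∮ ξ in C(1, 1 / 2), b k * ((ξ - z k)⁻¹ • F ξ) := by
      rw [← circleIntegral.integral_fun_sum hint]
      congr 1
      funext ξ
      rw [Finset.sum_mul]
      refine Finset.sum_congr rfl fun k _ => ?_
      rw [smul_eq_mul, div_eq_mul_inv, mul_assoc]
    rw [e1]
    have e2 : ∀ k ∈ S, (∮ ξ in C(1, 1 / 2), b k * ((ξ - z k)⁻¹ • F ξ)) =
        (2 * Real.pi * I : ℂ) * (c k * Complex.exp (k * (y + t) * I)) := by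
      intro k hk
      have e3 : (∮ ξ in C(1, 1 / 2), b k * ((ξ - z k)⁻¹ • F ξ)) =
          b k * ∮ ξ in C(1, 1 / 2), ((ξ - z k)⁻¹ • F ξ) := circleIntegral.integral_const_mul _ _ _ _
      rw [e3, hcauchy k hk, hFz k hk, smul_eq_mul]
      simp only [hb]
      have e4 : Complex.exp (k * (y + t) * I) = Complex.exp (k * y * I) * Complex.exp (k * t * I) := by
        rw [← Complex.exp_add]
        congr 1
        ring
      rw [e4]
      ring
    rw [Finset.sum_congr rfl e2, ← Finset.mul_sum, smul_eq_mul, ← mul_assoc, inv_mul_cancel₀, one_mul]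
    simp [Real.pi_ne_zero]
  rw [hsum]
  have hbd : ∀ ξ ∈ Metric.sphere (1 : ℂ) (1 / 2), ‖(∑ k ∈ S, b k / (ξ - z k)) * F ξ‖ ≤
      12 ^ S.card * M * Real.exp (‖t‖ / h) := by
    intro ξ hξ
    rw [norm_mul]
    have h1 : ‖∑ k ∈ S, b k / (ξ - z k)‖ ≤ 12 ^ S.card * M := by
      refine resolvent z ξ S (fun k _ => (hz1 k).le) (fun k hk => hdist k hk ξ hξ) b M hM0 ?_
      intro j hj
      refine le_trans (le_of_eq ?_) (hM j hj)
      congr 1
      refine Finset.sum_congr rfl fun k _ => ?_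
      simp only [hb, hz]
      rw [mul_assoc, ← Complex.exp_nat_mul, ← Complex.exp_add]
      congr 2
      ring
    have h2 : ‖F ξ‖ ≤ Real.exp (‖t‖ / h) := by
      simp only [hF]
      rw [Complex.norm_exp]
      refine Real.exp_le_exp.2 ((Complex.re_le_norm _).trans ?_)
      rw [norm_mul, norm_div, Complex.norm_real, Real.norm_of_nonneg hh.le]
      have h3 : ‖Complex.log ξ‖ ≤ 1 := by
        have h4 : ‖ξ - 1‖ = 1 / 2 := by rwa [mem_sphere_iff_norm] at hξ
        have h5 := Complex.norm_log_one_add_le (z := ξ - 1) (by rw [h4]; norm_num)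
        rw [add_sub_cancel, h4] at h5
        refine h5.trans ?_
        norm_num
      calc ‖t‖ / h * ‖Complex.log ξ‖ ≤ ‖t‖ / h * 1 := by gcongr
        _ = ‖t‖ / h := mul_one _
    exact mul_le_mul h1 h2 (norm_nonneg _) (by positivity)
  refine (circleIntegral.norm_two_pi_i_inv_smul_integral_le_of_norm_le_const (by norm_num) hbd).trans ?_
  have h1 : 0 ≤ 12 ^ S.card * M * Real.exp (‖t‖ / h) := by positivity
  calc 1 / 2 * (12 ^ S.card * M * Real.exp (‖t‖ / h)) ≤ 1 * (12 ^ S.card * M * Real.exp (‖t‖ / h)) := by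
        gcongr
        norm_num
    _ = Real.exp (‖t‖ / h) * 12 ^ S.card * M := by ring

end Pool.Agent.R220.TI
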